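import Pool.Agent.helper17.GFG.Spec

/-! Row gg:KFI (MP_561ff4_al): the fifth conjugate. -/

set_option autoImplicit false

open Finset

namespace Pool.Agent.EXT

open Pool.Agent.EXC

lemma KFI_one : ∀ i : Fin 3, (ip C6 (ga3 i) (ga3 i) = 2 ∧ pv (ga3 i) ≠ ga3 i) ∧
    (ip C6 (wa3 i) (wa3 i) = 2 ∧ pv (wa3 i) = wa3 i) ∧
    (ip C6 (wa3 i + th) (wa3 i + th) = 2 ∧ pv (wa3 i + th) = wa3 i + th) ∧
    ip C6 (wa3 i) th = -1 ∧ ip C6 (ga3 i) (wa3 i + th) = -1 ∧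
    ip C6 th (ga3 i + pv (ga3 i) + (wa3 i + th)) = -1 ∧ ip C6 th (ga3 i + (wa3 i + th)) = 0 ∧
    ga3 i + (wa3 i + th) = de3 i ∧ (ip C6 th th = 2 ∧ pv th = th) ∧
    (sg C6 (wa3 i) th = 1 ∨ sg C6 (wa3 i) th = -1) := by
  decide +kernel

lemma KFI_two : ∀ i j : Fin 3, 0 ≤ ip C6 (ga3 j) (wa3 i) ∧ (j ≠ i → 0 ≤ ip C6 (ga3 j) (wa3 i + th)) ∧
    0 ≤ ip C6 (ga3 i) (ga3 j) ∧ 0 ≤ ip C6 (ga3 i) (pv (ga3 j)) := by
  decide +kernel

lemma KFI_grp {G : Type*} [Group G] (H : Subgroup G) (g x y e w : G) (hz : g * x * g⁻¹ ∈ H) (hw : w ∈ H)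
    (hc : g * w = w * g) (hwx : w * x * w⁻¹ = x * y) : g * y * g⁻¹ ∈ H := by
  have h1 : w * (g * x * g⁻¹) * w⁻¹ ∈ H := H.mul_mem (H.mul_mem hw hz) (H.inv_mem hw)
  have h2 : w * (g * x * g⁻¹) * w⁻¹ = (g * x * g⁻¹) * (g * y * g⁻¹) := by
    have h3 : g⁻¹ * w⁻¹ = w⁻¹ * g⁻¹ := by
      rw [← mul_inv_rev, ← mul_inv_rev, hc]
    calc w * (g * x * g⁻¹) * w⁻¹ = (w * g) * x * (g⁻¹ * w⁻¹) := by group
      _ = (g * w) * x * (w⁻¹ * g⁻¹) := by rw [h3, hc]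
      _ = g * (w * x * w⁻¹) * g⁻¹ := by group
      _ = g * (x * y) * g⁻¹ := by rw [hwx]
      _ = (g * x * g⁻¹) * (g * y * g⁻¹) := by group
  rw [h2] at h1
  exact (H.mul_mem_cancel_left hz).mp h1

lemma KFI_cj {G : Type*} [Group G] (a b x : G) (hb : b * x = x * b) : (a * b) * x * (a * b)⁻¹ = a * x * a⁻¹ := by
  calc (a * b) * x * (a * b)⁻¹ = a * (b * x) * b⁻¹ * a⁻¹ := by group
    _ = a * (x * b) * b⁻¹ * a⁻¹ := by rw [hb]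
    _ = a * x * a⁻¹ := by group

theorem KFI (hKXC : KXC_stmt) (hKSC : KSC_stmt) (hKFA : KFA_stmt) : KFI_stmt := by
  intro K _ τ hτ c hc hc0 H hH r g hg hz i
  have hcw : ∀ k j : Fin 3, g j * XP6 c (wa3 k) 1 = XP6 c (wa3 k) 1 * g j := fun k j =>
    (hKSC K τ hτ).2.2.1 (ga3 j) (wa3 k) (KFI_one j).1 (KFI_one k).2.1 (KFI_two k j).1 _ _ _ (hg j)
  have hcu : ∀ k j : Fin 3, j ≠ k → ∀ e : K, g j * XP6 c (wa3 k + th) e = XP6 c (wa3 k + th) e * g j := fun k j hjk e =>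
    (hKSC K τ hτ).2.2.1 (ga3 j) (wa3 k + th) (KFI_one j).1 (KFI_one k).2.2.1 ((KFI_two k j).2.1 hjk) _ _ _ (hg j)
  have hcg : ∀ k j : Fin 3, g k * g j = g j * g k := fun k j =>
    (hKSC K τ hτ).2.2.2.1 (ga3 k) (ga3 j) (KFI_one k).1 (KFI_one j).1 (KFI_two k j).2.2.1 (KFI_two k j).2.2.2 _ _ _ _
      (hg k) (hg j)
  obtain ⟨q1, q2, q3, q4, q5, q6, q7, q8, q9, q10⟩ := KFI_one i
  obtain ⟨e, he, hwx⟩ : ∃ e : K, (e = 1 ∨ e = -1) ∧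
      XP6 c (wa3 i) 1 * XP6 c th 1 * (XP6 c (wa3 i) 1)⁻¹ = XP6 c th 1 * XP6 c (wa3 i + th) e := by
    refine ⟨1 * 1 * (sg C6 (wa3 i) th : K), ?_, (hKXC K c hc0 (wa3 i) th q2.1 q9.1 1 1).2.2.2.1 q4⟩
    rcases q10 with h | h
    · left
      rw [h]
      push_cast
      ring
    · right
      rw [h]
      push_cast
      ring
  have hcG : (g 0 * g 1 * g 2) * XP6 c (wa3 i) 1 = XP6 c (wa3 i) 1 * (g 0 * g 1 * g 2) := by
    have h0 : Commute (g 0) (XP6 c (wa3 i) 1) := hcw i 0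
    have h1 : Commute (g 1) (XP6 c (wa3 i) 1) := hcw i 1
    have h2 : Commute (g 2) (XP6 c (wa3 i) 1) := hcw i 2
    exact (h0.mul_left h1).mul_left h2
  have hm := KFI_grp H (g 0 * g 1 * g 2) (XP6 c th 1) (XP6 c (wa3 i + th) e) 1 (XP6 c (wa3 i) 1) hz
    (hH _ q2) hcG hwx
  have hcol : (g 0 * g 1 * g 2) * XP6 c (wa3 i + th) e * (g 0 * g 1 * g 2)⁻¹ = g i * XP6 c (wa3 i + th) e * (g i)⁻¹ := by
    have key : ∀ a b d : Fin 3, g 0 * g 1 * g 2 = g a * (g b * g d) → b ≠ a → d ≠ a → a = i →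
        (g 0 * g 1 * g 2) * XP6 c (wa3 i + th) e * (g 0 * g 1 * g 2)⁻¹ = g i * XP6 c (wa3 i + th) e * (g i)⁻¹ := by
      intro a b d hG hb hd ha
      subst ha
      rw [hG]
      refine KFI_cj _ _ _ ?_
      have h1 : Commute (g b) (XP6 c (wa3 a + th) e) := hcu a b hb e
      have h2 : Commute (g d) (XP6 c (wa3 a + th) e) := hcu a d hd e
      exact h1.mul_left h2
    have hi : i = 0 ∨ i = 1 ∨ i = 2 := (by decide : ∀ k : Fin 3, k = 0 ∨ k = 1 ∨ k = 2) i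
    rcases hi with h | h | h
    · exact key 0 1 2 (mul_assoc _ _ _) (by decide) (by decide) h.symm
    · refine key 1 0 2 ?_ (by decide) (by decide) h.symm
      rw [← mul_assoc, hcg 1 0]
    · refine key 2 0 1 ?_ (by decide) (by decide) h.symm
      rw [mul_assoc, hcg 1 2, ← mul_assoc, hcg 0 2, mul_assoc]
  rw [hcol] at hm
  have := hKFA K τ hτ c hc hc0 H hH (ga3 i) (wa3 i + th) th q1 q3 q9 q5 q6 q7 (r i) e (g i) he (hg i) hm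
  rwa [q8] at this

end Pool.Agent.EXT
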